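import Pool.Agent.P8H83.DS.Fin
import Pool.Agent.P8H71.DS.Mwu
import Pool.Agent.P8H71.DS.Cor
import Pool.Agent.P8H33.DS.Bicol
import Pool.Agent.P8H33.DS.Good
import Pool.Agent.P8H33.DS.Round
import Pool.Agent.P8H52.DS.Pol

set_option autoImplicit false

/-!
# DOMINATING SET is in P on balanced chordal graphs (MP_1e64e3_lc, full answer of Q1)

The complexity of DOMINATING SET restricted to the class of the balanced chordal graphs is
determined: it is solvable in (deterministic) polynomial time.

Proof. The closed neighbourhood matrix of a balanced chordal graph is a balanced matrix
(`Pool.Agent.Y600.DC.nb`, a starting file of helper600). By Berge's theorem on good colourings every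
multiset of vertices that meets each closed neighbourhood at least `m` times contains a dominating
set with at most `1 / m` times as many vertices. The algorithm runs `8 (n + 1)^4` rounds of the
multiplicative weights method with integer weights: in each round it takes the vertex whose closed
neighbourhood has the largest weight, and multiplies the weights in this neighbourhood by `2 n + 1`
and the others by `2 n + 2`. There is a dominating set with at most `k` vertices if and only if
every closed neighbourhood was met in more than `1 / (k + 1)` of the rounds.

Authors: helper83 (assembly), helper33 (Berge's theorems and the rounding), helper71 (the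
multiplicative weights bound, the correctness of the list program), helper52 (polynomial time);
the plan and the lemma on closed neighbourhoods are those of helper600 (starting files).
-/

namespace Pool.Agent.Results.MP_1e64e3_lc.PolynomialTime

open Pool.Agent.NPC Pool.Agent.NPC.R671 Pool.Agent.Y600.DC

/-- DOMINATING SET is solvable in polynomial time on balanced chordal graphs: there is a function
`A` on bit strings, computable in polynomial time by a Turing machine, such that for every chordal
graph `G` on `{0, ..., n - 1}` with balanced clique hypergraph and every `k` (in binary), `A` answers
`true` on the code of the adjacency matrix of `G` and `k` if `G` has a dominating set with at most `k`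
vertices, and `false` otherwise. -/
theorem result : ∃ A : List Bool → List Bool, PolyTime A ∧
    ∀ (n : ℕ) (G : SimpleGraph (Fin n)) (k : ℕ), Chordal G → Balanced G →
      ((∃ D : Finset (Fin n), D.card ≤ k ∧ Dominating G D) →
        A (bits (adjMatrix G, k)) = [true]) ∧
      ((¬ ∃ D : Finset (Fin n), D.card ≤ k ∧ Dominating G D) →
        A (bits (adjMatrix G, k)) = [false]) := by
  obtain ⟨A, hA, hAp, h⟩ := Pool.Agent.P8H83.DS.fin
    (Pool.Agent.P8H33.DS.round (Pool.Agent.P8H33.DS.good Pool.Agent.P8H33.DS.bicol))
    Pool.Agent.P8H71.DS.MWU.mwu Pool.Agent.P8H71.DS.COR.cor Pool.Agent.P8H52.DS.pol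
  refine ⟨A, hA, fun n G k h1 h2 => ⟨fun hD => (h n G k h1 h2).2 hD, fun hD => ?_⟩⟩
  rcases hAp (adjMatrix G, k) with e | e
  · exact absurd ((h n G k h1 h2).1 e) hD
  · exact e

end Pool.Agent.Results.MP_1e64e3_lc.PolynomialTime
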